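import Pool.Agent.H29.CW.Main
import Pool.Agent.H29.CWA.Final
import Pool.Agent.H61.PO.Discs

/-!
# MP_c830f0_an: every cw_F-hyperbolic homeomorphism of a closed surface is cw_2-hyperbolic

Notes 2949 (arcs imply cw_2) and 2967 (the local continua are arcs).  The proof uses no published theorem on cw-hyperbolic
homeomorphisms: the arc theorem is proved in `Pool/Agent/H29/CWA/`, the bound in `Pool/Agent/H29/CW/`, the planar topology in `Pool/Agent/H61/PO/`.
-/

set_option autoImplicit false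

namespace Pool.Agent.Results.MP_c830f0_an.CwFTwo

open Pool.Agent.H29.CW

theorem result {S : Type*} [MetricSpace S] [CompactSpace S] [ConnectedSpace S]
    [ChartedSpace (EuclideanSpace ℝ (Fin 2)) S] (f : S ≃ₜ S) (h : CwFHyp f) :
    CwNHyp 2 f := by
  obtain ⟨⟨hexp, c, hc, hfin⟩, hlps⟩ := h
  have hM : Pool.Agent.H61.PO.Surf S := Pool.Agent.H61.PO.surf_charted
  have H0 : Pool.Agent.H29.CWA.Hyp0 f c := ⟨hc, hfin, hlps⟩
  obtain ⟨c', hc', harc⟩ := Pool.Agent.H29.CWA.locArcs H0 hM
  have hm : 0 < min c c' := lt_min hc hc'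
  have hs : ∀ x, Cs f (min c c') x ⊆ Cs f c x := fun x => Cs_mono hm.le (min_le_left _ _)
  have hu : ∀ x, Cu f (min c c') x ⊆ Cu f c x := fun x =>
    Cs_mono (f := f.symm) hm.le (min_le_left _ _)
  have hs' : ∀ x, Cs f (min c c') x ⊆ Cs f c' x := fun x => Cs_mono hm.le (min_le_right _ _)
  have hu' : ∀ x, Cu f (min c c') x ⊆ Cu f c' x := fun x =>
    Cs_mono (f := f.symm) hm.le (min_le_right _ _)
  have H : Hyp f (min c c') :=
    { pos := hm
      fin := fun x => (hfin x).subset (Set.inter_subset_inter (hs x) (hu x))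
      arcS := fun x => ((harc x).1).mono (hs' x)
      arcU := fun x => ((harc x).2).mono (hu' x)
      lps := hlps }
  obtain ⟨ε, hε, hε2⟩ := main H hM
  exact ⟨⟨hexp, ε, hε, hε2⟩, hlps⟩

end Pool.Agent.Results.MP_c830f0_an.CwFTwo
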